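import Mathlib

namespace Pool.Agent.Results.MP_7a8221_co.FiveByEight

open Finset

/-- The cell `(i, j)` is `[i,i+1] × [j,j+1]`. A row of three cells plus one above an end cell. -/
def L : Finset (ℤ × ℤ) := {(0, 0), (1, 0), (2, 0), (2, 1)}

/-- The quarter turn `(x, y) ↦ (-y, x)` acting on cells. -/
def rot (c : ℤ × ℤ) : ℤ × ℤ := (-c.2 - 1, c.1)

/-- The copy of `L` rotated by `k` quarter turns and translated by `v` (no reflection). -/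
def tile (k : ℕ) (v : ℤ × ℤ) : Finset (ℤ × ℤ) := L.image fun c => rot^[k] c + v

def Tileable (m n : ℕ) : Prop :=
  ∃ T : Finset (Finset (ℤ × ℤ)), (∀ t ∈ T, ∃ k v, t = tile k v) ∧
    (∀ s ∈ T, ∀ t ∈ T, s ≠ t → Disjoint s t) ∧
    T.biUnion id = Ico (0 : ℤ) m ×ˢ Ico (0 : ℤ) n

def P : Finset (ℕ × ℤ × ℤ) :=
  {(1, 2, 1), (1, 5, 3), (2, 4, 8), (3, 0, 3), (3, 0, 8), (3, 2, 4), (3, 3, 5), (0, 0, 4), (0, 2, 0), (0, 2, 6)}

theorem result : Tileable 5 8 ∧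
    ¬ ∀ m n : ℕ, 1 ≤ m → 1 ≤ n → (Tileable m n ↔ (4 ∣ m ∧ 2 ∣ n) ∨ (4 ∣ n ∧ 2 ∣ m)) := by
  have h : Tileable 5 8 := by
    refine ⟨P.image fun p => tile p.1 p.2, fun t ht => ?_, by decide +kernel, by decide +kernel⟩
    obtain ⟨p, -, rfl⟩ := mem_image.1 ht
    exact ⟨_, _, rfl⟩
  exact ⟨h, fun k => absurd ((k 5 8 (by decide) (by decide)).1 h) (by decide)⟩

end Pool.Agent.Results.MP_7a8221_co.FiveByEight
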